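import Pool.Agent.J6H9.EV.Stm

/-!
# EV-REC: adapted block lengths (MP_f6e960_lc)
-/

set_option autoImplicit false

namespace Pool.Agent.J6H47.EV

open Filter Topology Pool.Agent.J6H9.EU Pool.Agent.J6H9.EV

/-- the sum over a block -/
theorem F_le (f : ℕ → ℝ) (hmono : Monotone f) (a j : ℕ) :
    F f (a + j + 1) ≤ F f (a + 1) + j * f (a + j) := by
  induction j with
  | zero => simp
  | succ j ih =>
    have h1 : F f (a + (j + 1) + 1) = F f (a + j + 1) + f (a + (j + 1)) := by
      unfold F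
      rw [show a + (j + 1) + 1 = (a + j + 1) + 1 by ring, Finset.sum_range_succ]
      rfl
    have h2 : f (a + j) ≤ f (a + (j + 1)) := hmono (by omega)
    have h3 : (j : ℝ) * f (a + j) ≤ j * f (a + (j + 1)) :=
      mul_le_mul_of_nonneg_left h2 (Nat.cast_nonneg j)
    rw [h1]
    push_cast
    linarith

theorem main : S_REC := by
  intro f hf hmono hanti hlim
  have hFpos : ∀ n, 0 < F f (n + 1) := fun n =>
    Finset.sum_pos (fun i _ => hf i) (Finset.nonempty_range_iff.2 (Nat.succ_ne_zero n))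
  have hFge : ∀ n, f n ≤ F f (n + 1) := by
    intro n
    unfold F
    rw [Finset.sum_range_succ]
    have := Finset.sum_nonneg (s := Finset.range n) (f := f) fun i _ => (hf i).le
    linarith
  obtain ⟨h, hh⟩ : ∃ h : ℕ → ℝ, ∀ n, h n = F f (n + 1) / f n := ⟨_, fun _ => rfl⟩
  have h1 : ∀ n, 1 ≤ h n := fun n => by
    rw [hh]
    exact (one_le_div (hf n)).2 (hFge n)
  have hF : ∀ n, F f (n + 1) = h n * f n := fun n => by
    rw [hh, div_mul_cancel₀ _ (hf n).ne']
  have hinv : ∀ n, h n = (f n / F f (n + 1))⁻¹ := fun n => by rw [hh, inv_div]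
  have hm : Monotone h := by
    intro m n hmn
    rw [hinv, hinv]
    exact inv_anti₀ (div_pos (hf n) (hFpos n)) (hanti hmn)
  have hinf : Tendsto h atTop atTop := by
    have he : h = fun n => (f n / F f (n + 1))⁻¹ := funext hinv
    rw [he]
    refine Tendsto.inv_tendsto_nhdsGT_zero ?_
    exact tendsto_nhdsWithin_iff.2 ⟨hlim, Eventually.of_forall fun n => div_pos (hf n) (hFpos n)⟩
  -- the recursion
  obtain ⟨a, ha0, ha1⟩ : ∃ a : ℕ → ℕ, a 0 = 0 ∧ ∀ k, a (k + 1) = a k + (⌊h (a k) / 2⌋₊ + 1) :=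
    ⟨fun k => Nat.rec 0 (fun _ x => x + (⌊h x / 2⌋₊ + 1)) k, rfl, fun k => rfl⟩
  obtain ⟨d, hd⟩ : ∃ d : ℕ → ℕ, ∀ k, d k = ⌊h (a k) / 2⌋₊ + 1 := ⟨_, fun _ => rfl⟩
  have hst : ∀ k, st d k = a k := by
    intro k
    induction k with
    | zero => simp [st, ha0]
    | succ k ih =>
      unfold st at ih ⊢
      rw [Finset.sum_range_succ, ih, ha1, hd]
  have hamono : Monotone a := monotone_nat_of_le_succ fun k => by rw [ha1]; omega
  have hak : ∀ k, k ≤ a k := by
    intro k
    induction k with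
    | zero => omega
    | succ k ih => rw [ha1]; omega
  have hainf : Tendsto a atTop atTop := tendsto_atTop_mono hak tendsto_id
  have hdlow : ∀ k, h (a k) / 2 ≤ d k := fun k => by
    rw [hd]
    push_cast
    exact (Nat.lt_floor_add_one _).le
  have hdup : ∀ k, (d k : ℝ) ≤ h (a k) / 2 + 1 := fun k => by
    rw [hd]
    push_cast
    have := Nat.floor_le (a := h (a k) / 2) (by linarith [h1 (a k)])
    linarith
  refine ⟨d, ⟨fun n => by rw [hd]; omega, ?_, ?_, ?_, ?_, ?_, ?_⟩⟩
  · intro m n hmn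
    rw [hd, hd]
    have h2 : h (a m) / 2 ≤ h (a n) / 2 := by linarith [hm (hamono hmn)]
    have := Nat.floor_mono h2
    omega
  · have h2 : Tendsto (fun k => h (a k) / 2) atTop atTop :=
      (hinf.comp hainf).atTop_div_const (by norm_num)
    exact tendsto_natCast_atTop_iff (R := ℝ).1 (tendsto_atTop_mono hdlow h2)
  · intro n x hx
    exact hmono hx.1
  · intro n x hx
    obtain ⟨hx1, hx2⟩ := hx
    rw [hst] at hx1 hx2 ⊢
    obtain ⟨j, rfl⟩ := Nat.exists_eq_add_of_le hx1
    have hj : (j : ℝ) ≤ h (a n) / 2 := by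
      have h3 : j ≤ ⌊h (a n) / 2⌋₊ := by
        rw [hd] at hx2
        omega
      exact (Nat.le_floor_iff (by linarith [h1 (a n)])).1 h3
    have h4 := F_le f hmono (a n) j
    rw [hF, hF] at h4
    have h5 : h (a n) ≤ h (a n + j) := hm (Nat.le_add_right _ _)
    have hfx := hf (a n + j)
    have h6 : h (a n) * f (a n + j) ≤ h (a n + j) * f (a n + j) :=
      mul_le_mul_of_nonneg_right h5 hfx.le
    have h7 : (j : ℝ) * f (a n + j) ≤ h (a n) / 2 * f (a n + j) :=
      mul_le_mul_of_nonneg_right hj hfx.le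
    have h8 : h (a n) * f (a n + j) ≤ h (a n) * (2 * f (a n)) := by linarith
    exact le_of_mul_le_mul_left h8 (by linarith [h1 (a n)])
  · intro n
    rw [hst, hF]
    have := mul_le_mul_of_nonneg_right (hdlow n) (hf (a n)).le
    linarith
  · intro n
    rw [hst, hF]
    have h2 : (d n : ℝ) ≤ 2 * h (a n) := by linarith [hdup n, h1 (a n)]
    have := mul_le_mul_of_nonneg_right h2 (hf (a n)).le
    linarith

end Pool.Agent.J6H47.EV
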